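import Mathlib
import Pool.Agent.Work.MP_7406cc_gt.Alg

/-!
# An abelian group with at least `κ` elements, `κ` of uncountable cofinality, maps onto a direct
sum of at least `κ` copies of a countable nontrivial group
-/

set_option autoImplicit false

open TensorProduct Cardinal

namespace Pool.Agent.Work.MP_7406cc_gt.W

open Pool.Agent.Work.MP_7406cc_gt.Alg (locA z0 F1 F2 F3 F4 F6)

/-- The conclusion, for short. -/
def ConclK (κ : Cardinal.{0}) (X : Type) [AddCommGroup X] : Prop :=
  ∃ (Z : Type) (_ : AddCommGroup Z) (_ : Countable Z) (_ : Nontrivial Z)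
    (J : Type) (π : X →+ (J →₀ Z)), κ ≤ #J ∧ Function.Surjective π

variable {κ : Cardinal.{0}}

lemma ConclK.of_surjective {X Y : Type} [AddCommGroup X] [AddCommGroup Y] (f : X →+ Y)
    (hf : Function.Surjective f) (h : ConclK κ Y) : ConclK κ X := by
  obtain ⟨Z, i1, i2, i3, J, π, hJ, hπ⟩ := h
  exact ⟨Z, i1, i2, i3, J, π.comp f, hJ, hπ.comp hf⟩

lemma aleph0_lt (hκ : ℵ₀ < κ.ord.cof) : ℵ₀ < κ := hκ.trans_le (Ordinal.cof_ord_le κ)

lemma small_of_subgroup (hκ : ℵ₀ < κ) {G : Type} [AddCommGroup G] (s : AddSubgroup G)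
    (h1 : #s < κ) (h2 : #(G ⧸ s) < κ) : #G < κ := by
  rw [Cardinal.mk_congr (AddSubgroup.addGroupEquivQuotientProdAddSubgroup (s := s)),
    Cardinal.mk_prod, Cardinal.lift_id, Cardinal.lift_id]
  exact Cardinal.mul_lt_of_lt hκ.le h2 h1

lemma small_of_hom (hκ : ℵ₀ < κ) {G H : Type} [AddCommGroup G] [AddCommGroup H] (f : G →+ H)
    (hH : #H < κ) (hk : #f.ker < κ) : #G < κ := by
  apply small_of_subgroup hκ f.ker hk
  exact (Cardinal.mk_le_of_injective (QuotientAddGroup.kerLift_injective f)).trans_lt hH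

lemma small_finset (hκ : ℵ₀ < κ) {α : Type} (h : #α < κ) : #(Finset α) < κ := by
  rcases finite_or_infinite α with hf | hf
  · exact (Cardinal.mk_lt_aleph0).trans hκ
  · rwa [Cardinal.mk_finset_of_infinite]

lemma small_finsupp (hκ : ℵ₀ < κ) {J k : Type} [Zero k] [Countable k] (h : #J < κ) :
    #(J →₀ k) < κ := by
  have h1 : #(Finset (J × k)) < κ := by
    apply small_finset hκ
    rw [Cardinal.mk_prod, Cardinal.lift_id, Cardinal.lift_id]
    exact Cardinal.mul_lt_of_lt hκ.le h (Cardinal.mk_le_aleph0.trans_lt hκ)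
  exact (Cardinal.mk_le_of_injective (Finsupp.graph_injective J k)).trans_lt h1

lemma small_iUnion (hκ : ℵ₀ < κ.ord.cof) {α ι : Type} [Countable ι] (s : ι → Set α)
    (h : ∀ i, #(s i) < κ) : #(⋃ i, s i) < κ := by
  refine (Cardinal.mk_iUnion_le_sum_mk).trans_lt ?_
  refine (Cardinal.sum_le_mk_mul_iSup _).trans_lt ?_
  refine Cardinal.mul_lt_of_lt (aleph0_lt hκ).le (Cardinal.mk_le_aleph0.trans_lt (aleph0_lt hκ)) ?_
  exact Cardinal.iSup_lt_of_lt_cof_ord (Cardinal.mk_le_aleph0.trans_lt hκ) h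

lemma index_ge (hκ : ℵ₀ < κ) {k W J : Type} [Field k] [Countable k] [AddCommGroup W] [Module k W]
    (b : Module.Basis J k W) (hW : κ ≤ #W) : κ ≤ #J := by
  by_contra h
  rw [not_le] at h
  have h1 : #(J →₀ k) < κ := small_finsupp hκ h
  rw [← Cardinal.mk_congr b.repr.toEquiv] at h1
  exact absurd hW (not_le.2 h1)

lemma concl_of_module (hκ : ℵ₀ < κ) (k W : Type) [Field k] [Countable k] [AddCommGroup W]
    [Module k W] (hW : κ ≤ #W) : ConclK κ W := by
  let b := Module.Basis.ofVectorSpace k W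
  exact ⟨k, inferInstance, inferInstance, inferInstance, _,
    b.repr.toLinearMap.toAddMonoidHom, index_ge hκ b hW, b.repr.surjective⟩

lemma exists_basis_fun (hκ : ℵ₀ < κ) (k W : Type) [Field k] [Countable k] [AddCommGroup W]
    [Module k W] (hW : κ ≤ #W) : ∃ (J : Type) (_ : κ ≤ #J) (e : J → W) (r : W ≃+ (J →₀ k)),
      ∀ j, r (e j) = Finsupp.single j 1 := by
  let b := Module.Basis.ofVectorSpace k W
  exact ⟨_, index_ge hκ b hW, b, b.repr.toAddEquiv, fun j => b.repr_self j⟩

/-- First case. -/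
lemma case_one (hκ : ℵ₀ < κ) (X : Type) [AddCommGroup X] (p : ℕ) [hp : Fact p.Prime]
    (h : κ ≤ #(X ⧸ (nsmulAddMonoidHom p : X →+ X).range)) : ConclK κ X := by
  let _ : Module (ZMod p) (X ⧸ (nsmulAddMonoidHom p : X →+ X).range) :=
    AddCommGroup.zmodModule (n := p) (by
      intro x
      obtain ⟨y, rfl⟩ := QuotientAddGroup.mk_surjective x
      rw [← QuotientAddGroup.mk_nsmul, QuotientAddGroup.eq_zero_iff]
      exact ⟨y, rfl⟩)
  exact ConclK.of_surjective (QuotientAddGroup.mk' (nsmulAddMonoidHom p : X →+ X).range)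
    (QuotientAddGroup.mk'_surjective _) (concl_of_module hκ (ZMod p) _ h)

/-- Divisible group whose torsion is small. -/
lemma case_free (hκ : ℵ₀ < κ.ord.cof) (V : Type) [AddCommGroup V] (hV : κ ≤ #V)
    (hdiv : ∀ n : ℕ, n ≠ 0 → ∀ v : V, ∃ w, n • w = v)
    (hT : ∀ p : ℕ, p.Prime → #(nsmulAddMonoidHom p : V →+ V).ker < κ) : ConclK κ V := by
  have hκ0 := aleph0_lt hκ
  -- `V[n]` is small
  have hn : ∀ n : ℕ, n ≠ 0 → #(nsmulAddMonoidHom n : V →+ V).ker < κ := by
    intro n
    induction n using Nat.recOnMul with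
    | zero => intro h; exact absurd rfl h
    | one =>
      intro _
      have : Subsingleton (nsmulAddMonoidHom 1 : V →+ V).ker := by
        constructor
        rintro ⟨a, ha⟩ ⟨b, hb⟩
        rw [AddMonoidHom.mem_ker, nsmulAddMonoidHom_apply, one_smul] at ha hb
        exact Subtype.ext (ha.trans hb.symm)
      exact (Cardinal.mk_le_aleph0).trans_lt hκ0
    | prime p hp => intro _; exact hT p hp
    | mul a b iha ihb =>
      intro hab
      have ha : a ≠ 0 := left_ne_zero_of_mul hab
      have hb : b ≠ 0 := right_ne_zero_of_mul hab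
      let f : (nsmulAddMonoidHom (a * b) : V →+ V).ker →+ (nsmulAddMonoidHom b : V →+ V).ker :=
        { toFun := fun x => ⟨a • x.1, by
            have hx := x.2
            rw [AddMonoidHom.mem_ker, nsmulAddMonoidHom_apply] at hx ⊢
            rw [← mul_smul, mul_comm]
            exact hx⟩
          map_zero' := by ext; simp
          map_add' := fun x y => by ext; simp }
      apply small_of_hom hκ0 f (ihb hb)
      have := iha ha
      let g : f.ker → (nsmulAddMonoidHom a : V →+ V).ker := fun x => ⟨x.1.1, by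
        have hx := x.2
        rw [AddMonoidHom.mem_ker] at hx ⊢
        exact congrArg Subtype.val hx⟩
      have hg : Function.Injective g := by
        intro x y hxy
        apply Subtype.ext
        apply Subtype.ext
        exact congrArg (fun z : (nsmulAddMonoidHom a : V →+ V).ker => z.1) hxy
      exact (Cardinal.mk_le_of_injective hg).trans_lt this
  -- base change to the rationals
  let f : V →ₗ[ℤ] (ℚ ⊗[ℤ] V) := TensorProduct.mk ℤ ℚ V 1
  have hloc : IsLocalizedModule (nonZeroDivisors ℤ) f :=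
    (isLocalizedModule_iff_isBaseChange (nonZeroDivisors ℤ) ℚ f).2
      (TensorProduct.isBaseChange ℤ V ℚ)
  have hf : Function.Surjective f := by
    intro x
    induction x using TensorProduct.induction_on with
    | zero => exact ⟨0, map_zero _⟩
    | tmul q v =>
      obtain ⟨w, hw⟩ := hdiv q.den q.den_nz v
      refine ⟨q.num • w, ?_⟩
      change (1 : ℚ) ⊗ₜ[ℤ] (q.num • w) = q ⊗ₜ[ℤ] v
      rw [← hw, ← natCast_zsmul, ← TensorProduct.smul_tmul, ← TensorProduct.smul_tmul]
      congr 1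
      rw [zsmul_eq_mul, zsmul_eq_mul, mul_one]
      have := q.num_div_den
      have h0 : (q.den : ℚ) ≠ 0 := by exact_mod_cast q.den_nz
      push_cast
      rw [mul_comm]
      exact (Rat.mul_den_eq_num q).symm
    | add x y hx hy =>
      obtain ⟨a, rfl⟩ := hx
      obtain ⟨b, rfl⟩ := hy
      exact ⟨a + b, map_add _ _ _⟩
  have hk : #f.toAddMonoidHom.ker < κ := by
    have h1 : (f.toAddMonoidHom.ker : Set V) ⊆
        ⋃ n : {n : ℕ // n ≠ 0}, ((nsmulAddMonoidHom n.1 : V →+ V).ker : Set V) := by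
      intro v hv
      have hv' : f v = 0 := hv
      rw [IsLocalizedModule.eq_zero_iff (nonZeroDivisors ℤ) f] at hv'
      obtain ⟨c, hc⟩ := hv'
      rw [Set.mem_iUnion]
      have hc0 : (c : ℤ) ≠ 0 := nonZeroDivisors.ne_zero c.2
      refine ⟨⟨(c : ℤ).natAbs, Int.natAbs_ne_zero.2 hc0⟩, ?_⟩
      change (c : ℤ).natAbs • v = 0
      have hc' : (c : ℤ) • v = 0 := hc
      rcases Int.natAbs_eq (c : ℤ) with h | h
      · rw [h, natCast_zsmul] at hc'
        exact hc'
      · rw [h, neg_smul, natCast_zsmul, neg_eq_zero] at hc'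
        exact hc'
    have h2 : #(⋃ n : {n : ℕ // n ≠ 0}, ((nsmulAddMonoidHom n.1 : V →+ V).ker : Set V)) < κ :=
      small_iUnion hκ _ fun n => hn n.1 n.2
    exact (Cardinal.mk_le_mk_of_subset h1).trans_lt h2
  have hQ : κ ≤ #(ℚ ⊗[ℤ] V) := by
    by_contra h
    rw [not_le] at h
    exact absurd hV (not_le.2 (small_of_hom hκ0 f.toAddMonoidHom h hk))
  exact ConclK.of_surjective f.toAddMonoidHom hf (concl_of_module hκ0 ℚ (ℚ ⊗[ℤ] V) hQ)

lemma case_torsion (hκ : ℵ₀ < κ) (p : ℕ) (hp : p.Prime) (V : Type) [AddCommGroup V]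
    (hdiv : ∀ n : ℕ, n ≠ 0 → ∀ v : V, ∃ w, n • w = v)
    (h : κ ≤ #(nsmulAddMonoidHom p : V →+ V).ker) : ConclK κ V := by
  have : Fact p.Prime := ⟨hp⟩
  let T := (nsmulAddMonoidHom p : V →+ V).ker
  let _ : Module (ZMod p) T := AddCommGroup.zmodModule (n := p) (by
    intro x
    apply Subtype.ext
    exact x.2)
  obtain ⟨J, hJ, e, r, hr⟩ := exists_basis_fun hκ (ZMod p) T h
  let Z := ℚ ⧸ locA p hp
  -- divisibility of the direct sum
  have hsurj : ∀ {n : ℤ}, n ≠ 0 → Function.Surjective (fun x : J →₀ Z => n • x) := by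
    intro n hn x
    induction x using Finsupp.induction_linear with
    | zero => exact ⟨0, smul_zero _⟩
    | add x y hx hy =>
      obtain ⟨a, rfl⟩ := hx
      obtain ⟨c, rfl⟩ := hy
      exact ⟨a + c, smul_add _ _ _⟩
    | single j z =>
      obtain ⟨w, hw⟩ := F6 p hp hn z
      exact ⟨Finsupp.single j w, by simp only [Finsupp.smul_single, hw]⟩
  let _ : DivisibleBy (J →₀ Z) ℤ := divisibleByOfSMulRightSurj _ _ hsurj
  -- the map on the socle
  let l : ZMod p →+ Z := ZMod.lift p ⟨zmultiplesHom Z (z0 p hp), by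
    simp only [zmultiplesHom_apply, natCast_zsmul]
    exact F1 p hp⟩
  have hl : l 1 = z0 p hp := by
    have := ZMod.lift_coe p (⟨zmultiplesHom Z (z0 p hp), by
      simp only [zmultiplesHom_apply, natCast_zsmul]
      exact F1 p hp⟩ : {f : ℤ →+ Z // f p = 0}) 1
    simpa using this
  let g : T →+ (J →₀ Z) := (Finsupp.mapRange.addMonoidHom l).comp r.toAddMonoidHom
  obtain ⟨f, hf⟩ := (Module.Baer.of_divisible (J →₀ Z)).extension_property_addMonoidHom
    T.subtype T.subtype_injective g
  have hfe : ∀ j, f (e j : V) = Finsupp.single j (z0 p hp) := by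
    intro j
    have h1 := DFunLike.congr_fun hf (e j)
    change f (e j : V) = g (e j) at h1
    rw [h1]
    change Finsupp.mapRange l (map_zero l) (r (e j)) = _
    rw [hr, Finsupp.mapRange_single, hl]
  -- the socle is in the range
  have hsoc : ∀ x : J →₀ Z, p • x = 0 → x ∈ f.range := by
    intro x hx
    rw [← Finsupp.sum_single x]
    apply AddSubgroup.sum_mem
    intro j _
    have hxj : p • x j = 0 := by
      have := DFunLike.congr_fun hx j
      simpa using this
    obtain ⟨k, hk⟩ := F2 p hp (x j) hxj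
    refine ⟨k • (e j : V), ?_⟩
    rw [map_zsmul, hfe, hk, Finsupp.smul_single]
  have hpow : ∀ n : ℕ, ∀ x : J →₀ Z, p ^ n • x = 0 → x ∈ f.range := by
    intro n
    induction n with
    | zero =>
      intro x hx
      rw [pow_zero, one_smul] at hx
      rw [hx]
      exact f.range.zero_mem
    | succ n ih =>
      intro x hx
      rw [pow_succ, mul_smul] at hx
      obtain ⟨v, hv⟩ := ih _ hx
      obtain ⟨w, hw⟩ := hdiv p hp.ne_zero v
      have h1 : p • (x - f w) = 0 := by
        rw [smul_sub, ← map_nsmul, hw, hv, sub_self]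
      have h2 := f.range.add_mem (hsoc _ h1) ⟨w, rfl⟩
      rwa [sub_add_cancel] at h2
  have htor : ∀ x : J →₀ Z, ∃ n : ℕ, p ^ n • x = 0 := by
    intro x
    induction x using Finsupp.induction_linear with
    | zero => exact ⟨0, smul_zero _⟩
    | add x y hx hy =>
      obtain ⟨a, ha⟩ := hx
      obtain ⟨c, hc⟩ := hy
      refine ⟨a + c, ?_⟩
      rw [smul_add, pow_add]
      nth_rewrite 1 [mul_comm (p ^ a) (p ^ c)]
      rw [mul_smul, mul_smul, ha, hc, smul_zero, smul_zero, add_zero]
    | single j z =>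
      obtain ⟨n, hn⟩ := F3 p hp z
      exact ⟨n, by rw [Finsupp.smul_single, hn, Finsupp.single_zero]⟩
  have hZ : Countable Z := Quotient.countable
  refine ⟨Z, inferInstance, hZ, ⟨⟨z0 p hp, 0, F4 p hp⟩⟩, J, f, hJ, fun x => ?_⟩
  obtain ⟨n, hn⟩ := htor x
  exact hpow n x hn

theorem exists_surjective_finsuppK (hκ : ℵ₀ < κ.ord.cof) (X : Type) [AddCommGroup X]
    (hX : κ ≤ #X) :
    ∃ (Z : Type) (_ : AddCommGroup Z) (_ : Countable Z) (_ : Nontrivial Z)
      (J : Type) (π : X →+ (J →₀ Z)), κ ≤ #J ∧ Function.Surjective π := by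
  change ConclK κ X
  have hκ0 := aleph0_lt hκ
  by_cases h1 : ∃ p : ℕ, p.Prime ∧ κ ≤ #(X ⧸ (nsmulAddMonoidHom p : X →+ X).range)
  · obtain ⟨p, hp, h⟩ := h1
    have : Fact p.Prime := ⟨hp⟩
    exact case_one hκ0 X p h
  · push Not at h1
    -- a small subgroup of representatives
    let S : Set X := ⋃ p : {p : ℕ // p.Prime},
      Set.range (fun q : X ⧸ (nsmulAddMonoidHom p.1 : X →+ X).range => q.out)
    have hS : #S < κ := by
      apply small_iUnion hκ
      intro p
      exact (Cardinal.mk_range_le).trans_lt (h1 p.1 p.2)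
    let B : AddSubgroup X :=
      (LinearMap.range (Finsupp.linearCombination ℤ (fun s : S => (s : X)))).toAddSubgroup
    have hB : #B < κ := by
      have h2 : #(S →₀ ℤ) < κ := small_finsupp hκ0 hS
      exact (Cardinal.mk_range_le (f := Finsupp.linearCombination ℤ
        (fun s : S => (s : X)))).trans_lt h2
    have hSB : ∀ s ∈ S, s ∈ B := by
      intro s hs
      exact ⟨Finsupp.single ⟨s, hs⟩ 1, by simp⟩
    let V := X ⧸ B
    have hV : κ ≤ #V := by
      by_contra h
      rw [not_le] at h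
      exact absurd hX (not_le.2 (small_of_subgroup hκ0 B hB h))
    have hdivp : ∀ p : ℕ, p.Prime → ∀ v : V, ∃ w, p • w = v := by
      intro p hp v
      obtain ⟨x, rfl⟩ := QuotientAddGroup.mk_surjective v
      set q : X ⧸ (nsmulAddMonoidHom p : X →+ X).range := QuotientAddGroup.mk x
      have h2 : (QuotientAddGroup.mk q.out : X ⧸ (nsmulAddMonoidHom p : X →+ X).range) =
        QuotientAddGroup.mk x := q.out_eq
      rw [QuotientAddGroup.eq] at h2
      obtain ⟨y, hy⟩ := h2
      have hmem : q.out ∈ B := hSB _ (Set.mem_iUnion.2 ⟨⟨p, hp⟩, ⟨q, rfl⟩⟩)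
      refine ⟨QuotientAddGroup.mk y, ?_⟩
      rw [← QuotientAddGroup.mk_nsmul]
      rw [QuotientAddGroup.eq]
      have h3 : p • y = -q.out + x := hy
      rw [h3]
      have h4 : -(-q.out + x) + x = q.out := by abel
      rw [h4]
      exact hmem
    have hdiv : ∀ n : ℕ, n ≠ 0 → ∀ v : V, ∃ w, n • w = v := by
      intro n
      induction n using Nat.recOnMul with
      | zero => intro h; exact absurd rfl h
      | one => intro _ v; exact ⟨v, one_smul _ _⟩
      | prime p hp => intro _; exact hdivp p hp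
      | mul a b iha ihb =>
        intro hab v
        obtain ⟨w, hw⟩ := iha (left_ne_zero_of_mul hab) v
        obtain ⟨w', hw'⟩ := ihb (right_ne_zero_of_mul hab) w
        exact ⟨w', by rw [mul_smul, hw', hw]⟩
    apply ConclK.of_surjective (QuotientAddGroup.mk' B) (QuotientAddGroup.mk'_surjective _)
    by_cases h3 : ∃ p : ℕ, p.Prime ∧ κ ≤ #(nsmulAddMonoidHom p : V →+ V).ker
    · obtain ⟨p, hp, h⟩ := h3
      exact case_torsion hκ0 p hp V hdiv h
    · push Not at h3
      exact case_free hκ V hV hdiv (fun p hp => h3 p hp)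

end Pool.Agent.Work.MP_7406cc_gt.W
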