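import Mathlib
import Pool.Agent.Work.MP_7406cc_gt.W.AlgK
import Pool.Agent.Work.MP_7406cc_gt.W.MainK
import Pool.Agent.Work.MP_7406cc_gt.Essential
import Pool.Agent.Work.MP_7406cc_gt.PS.All

/-!
# Minimal abelian groups whose countable sequentially closed sets are closed have weight less than
the size of any splitting family of uncountable cofinality
-/

open scoped Topology Pointwise
open Filter Set Cardinal

namespace Pool.Agent.Work.MP_7406cc_gt.W

open Pool.Agent.Work.MP_7406cc_gt

theorem embedding_of_precompact (κ : Cardinal.{0}) (hκ : ℵ₀ < κ.ord.cof)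
    (S : Set (Set ℕ)) (hS : #S ≤ κ)
    (hsplit : ∀ A : Set ℕ, A.Infinite → ∃ s ∈ S, (A ∩ s).Infinite ∧ (A \ s).Infinite)
    (G : Type) [CommGroup G] [τ : TopologicalSpace G] [IsTopologicalGroup G] [T2Space G]
    (htb : ∀ U ∈ 𝓝 (1 : G), ∃ F : Set G, F.Finite ∧ F * U = Set.univ)
    (hmin : ∀ t : TopologicalSpace G, τ ≤ t → @IsTopologicalGroup G t _ → @T2Space G t → t = τ)
    (hpr : ∀ A : Set G, A.Countable → IsSeqClosed A → IsClosed A) :
    ∃ (I : Type) (f : G →* (I → Circle)), #I < κ ∧ Topology.IsEmbedding f := by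
  obtain ⟨K, _, _, _, _, _, ι, hι, hd⟩ := Essential.exists_completion G htb
  have hess := Essential.essential_of_minimal hmin ι hι hd
  by_cases hc : #(K →ₜ* Circle) < κ
  · let F : K →* ((K →ₜ* Circle) → Circle) :=
      { toFun := fun k χ => χ k
        map_one' := by ext χ; simp
        map_mul' := by intro a b; ext χ; simp }
    refine ⟨K →ₜ* Circle, F.comp ι, hc, ?_⟩
    have h1 : Topology.IsEmbedding F := Dual.isEmbedding_ev
    exact h1.comp hι
  · exfalso
    push Not at hc
    obtain ⟨Z, _, _, _, J, π, hJ, hπ⟩ :=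
      exists_surjective_finsuppK hκ (Additive (K →ₜ* Circle)) hc
    have hκ0 : ℵ₀ ≤ κ := (aleph0_lt hκ).le
    refine main_auxK π hpr ι hι hess hπ S ?_ hsplit
    have h1 : #(insert Set.univ S : Set (Set ℕ)) ≤ κ := by
      refine (Cardinal.mk_insert_le).trans ?_
      refine (add_le_add_left hS 1).trans ?_
      rw [Cardinal.add_one_eq hκ0]
    rw [Cardinal.mk_prod, Cardinal.lift_id, Cardinal.lift_id]
    refine (mul_le_mul' (Cardinal.mk_le_aleph0.trans hκ0) h1).trans ?_
    rw [Cardinal.mul_eq_self hκ0]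
    exact hJ

end Pool.Agent.Work.MP_7406cc_gt.W
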