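import Mathlib
import Pool.Agent.Work.MP_7406cc_gt.W.Bound
import Pool.Agent.Work.MP_7406cc_gt.Converse

/-!
# The weight of minimal abelian groups and the splitting number
-/

open scoped Topology
open Filter Set Cardinal

namespace Pool.Agent.Work.MP_7406cc_gt.W

open Pool.Agent.Work.MP_7406cc_gt

/-- Every countable non-closed set contains a transfinite sequence converging to a point
outside. -/
def CPR (G : Type) [TopologicalSpace G] : Prop :=
  ∀ A : Set G, A.Countable → ¬ IsClosed A →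
    ∃ (ι : Type) (_ : LinearOrder ι), WellFoundedLT ι ∧ Nonempty ι ∧
      ∃ (x : ι → G) (p : G), (∀ i, x i ∈ A) ∧ p ∉ A ∧ Filter.Tendsto x Filter.atTop (nhds p)

theorem isClosed_of_CPR {G : Type} [TopologicalSpace G] [T2Space G] (hpr : CPR G)
    (A : Set G) (hA : A.Countable) (hseq : IsSeqClosed A) : IsClosed A := by
  by_contra hcl
  obtain ⟨ι, _, -, hne, x, p, hx, hp, hlim⟩ := hpr A hA hcl
  have hAne : A.Nonempty := ⟨x hne.some, hx _⟩
  obtain ⟨f, hf⟩ := hA.exists_eq_range hAne
  have h1 : ∀ n, ∃ b : ι, ∀ i, b ≤ i → x i ≠ f n := by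
    intro n
    have h2 : {f n}ᶜ ∈ 𝓝 p := by
      apply isOpen_compl_singleton.mem_nhds
      intro h
      apply hp
      rw [hf, h]
      exact ⟨n, rfl⟩
    have h3 := hlim h2
    rw [mem_map, mem_atTop_sets] at h3
    obtain ⟨b, hb⟩ := h3
    exact ⟨b, fun i hi => hb i hi⟩
  choose b hb using h1
  have h2 : ∀ i : ι, ∃ n, i ≤ partialSups b n := by
    intro i
    by_contra hcon
    push Not at hcon
    have h3 := hx i
    rw [hf] at h3
    obtain ⟨n, hn⟩ := h3
    exact hb n i ((le_partialSups b n).trans (hcon n).le) hn.symm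
  have h3 : Tendsto (partialSups b) atTop atTop :=
    tendsto_atTop_atTop_of_monotone (partialSups b).monotone h2
  exact hp (hseq (fun n => hx (partialSups b n)) (hlim.comp h3))

/-- The converse: ordinary sequences are transfinite sequences. -/
theorem CPR_of_isClosed {G : Type} [TopologicalSpace G]
    (h : ∀ A : Set G, A.Countable → IsSeqClosed A → IsClosed A) : CPR G := by
  intro A hA hcl
  by_contra hcon
  apply hcl
  apply h A hA
  intro x p hx hxp
  by_contra hp
  exact hcon ⟨ℕ, inferInstance, inferInstance, inferInstance, x, p, hx, hp, hxp⟩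

/-! ### Sequentially compact spaces -/

theorem isClosed_of_seqCompact {X : Type} [TopologicalSpace X] [T3Space X]
    (hsc : ∀ x : ℕ → X, ∃ φ : ℕ → ℕ, StrictMono φ ∧ ∃ p, Tendsto (x ∘ φ) atTop (𝓝 p))
    (A : Set X) (hA : A.Countable) (hseq : IsSeqClosed A) : IsClosed A := by
  by_contra hcl
  obtain ⟨p, hpc, hpA⟩ : ∃ p, p ∈ closure A ∧ p ∉ A := by
    by_contra hcon
    push Not at hcon
    exact hcl (isClosed_of_closure_subset hcon)
  have hAne : A.Nonempty := by
    rcases A.eq_empty_or_nonempty with h | h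
    · rw [h, closure_empty] at hpc
      exact absurd hpc (notMem_empty _)
    · exact h
  obtain ⟨f, hf⟩ := hA.exists_eq_range hAne
  have h1 : ∀ n, ∃ U ∈ 𝓝 p, IsClosed U ∧ U ⊆ {f n}ᶜ := by
    intro n
    apply exists_mem_nhds_isClosed_subset
    apply isOpen_compl_singleton.mem_nhds
    intro h
    apply hpA
    rw [hf, h]
    exact ⟨n, rfl⟩
  choose U hU hUc hUs using h1
  have h2 : ∀ n : ℕ, ∃ x ∈ A, ∀ m ≤ n, x ∈ U m := by
    intro n
    have h3 : (⋂ m ∈ Set.Iic n, U m) ∈ 𝓝 p := (biInter_mem (Set.finite_Iic n)).2 fun m _ => hU m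
    obtain ⟨x, hx1, hx2⟩ := mem_closure_iff_nhds.1 hpc _ h3
    refine ⟨x, hx2, fun m hm => ?_⟩
    rw [mem_iInter₂] at hx1
    exact hx1 m hm
  choose x hxA hxU using h2
  obtain ⟨φ, hφ, q, hq⟩ := hsc x
  have hqA : q ∈ A := hseq (fun n => hxA (φ n)) hq
  rw [hf] at hqA
  obtain ⟨m, rfl⟩ := hqA
  have h4 : f m ∈ U m := by
    apply (hUc m).mem_of_tendsto hq
    filter_upwards [eventually_ge_atTop m] with k hk
    exact hxU (φ k) m (hk.trans hφ.le_apply)
  exact hUs m h4 rfl

/-- Powers of finite discrete spaces with at most `κ` coordinates are sequentially compact if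
there is no splitting family with at most `κ` sets. -/
theorem seqCompact_pi {κ : Cardinal.{0}} (hκ : ℵ₀ ≤ κ)
    (hns : ¬ ∃ S : Set (Set ℕ), #S ≤ κ ∧
      ∀ A : Set ℕ, A.Infinite → ∃ s ∈ S, (A ∩ s).Infinite ∧ (A \ s).Infinite)
    (F : Type) [Finite F] [TopologicalSpace F] [DiscreteTopology F] (J : Type) (hJ : #J ≤ κ)
    (x : ℕ → J → F) :
    ∃ φ : ℕ → ℕ, StrictMono φ ∧ ∃ p, Tendsto (x ∘ φ) atTop (𝓝 p) := by
  classical
  let S : Set (Set ℕ) := Set.range fun q : J × F => {n | x n q.1 = q.2}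
  have hS : #S ≤ κ := by
    refine (Cardinal.mk_range_le).trans ?_
    rw [Cardinal.mk_prod, Cardinal.lift_id, Cardinal.lift_id]
    refine (mul_le_mul' hJ ((Cardinal.mk_le_aleph0 (α := F)).trans hκ)).trans ?_
    rw [Cardinal.mul_eq_self hκ]
  obtain ⟨A, hA, hAs⟩ : ∃ A : Set ℕ, A.Infinite ∧ ∀ s ∈ S, (A ∩ s).Infinite →
      (A \ s).Finite := by
    by_contra hcon
    push Not at hcon
    exact hns ⟨S, hS, fun A hA => by
      obtain ⟨s, hs, h1, h2⟩ := hcon A hA
      exact ⟨s, hs, h1, h2⟩⟩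
  have h1 : ∀ j, ∃ a : F, (A \ {n | x n j = a}).Finite := by
    intro j
    by_contra hcon
    push Not at hcon
    have h2 : ∀ a : F, (A ∩ {n | x n j = a}).Finite := by
      intro a
      by_contra h3
      exact hcon a (hAs _ ⟨(j, a), rfl⟩ h3)
    apply hA
    refine (Set.finite_iUnion h2).subset fun n hn => ?_
    rw [mem_iUnion]
    exact ⟨x n j, hn, rfl⟩
  choose p hp using h1
  refine ⟨Nat.nth (· ∈ A), Nat.nth_strictMono hA, p, ?_⟩
  rw [tendsto_pi_nhds]
  intro j
  have h2 : ∀ᶠ k in atTop, Nat.nth (· ∈ A) k ∉ A \ {n | x n j = p j} := by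
    have h3 := (hp j).compl_mem_cofinite
    rw [Nat.cofinite_eq_atTop] at h3
    exact (Nat.nth_strictMono hA).tendsto_atTop h3
  refine Tendsto.congr' (f₁ := fun _ => p j) ?_ tendsto_const_nhds
  filter_upwards [h2] with k hk
  by_contra hne
  exact hk ⟨Nat.nth_mem_of_infinite hA k, fun h => hne h.symm⟩

/-! ### Weights -/

/-- A power of a nontrivial discrete group has weight at least the number of coordinates. -/
theorem le_weight {κ : Cardinal.{0}} (hκ : ℵ₀ < κ) (F : Type) [Group F] [Nontrivial F]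
    [TopologicalSpace F] [DiscreteTopology F] (J : Type) (hJ : κ ≤ #J)
    (B : Set (Set (J → F))) (hB : TopologicalSpace.IsTopologicalBasis B) : κ ≤ #B := by
  classical
  by_contra hlt
  push Not at hlt
  have h1 : ∀ b : B, ∃ T : Finset J, (1 : J → F) ∈ b.1 → ∀ x : J → F, (∀ j ∈ T, x j = 1) →
      x ∈ b.1 := by
    intro b
    by_cases hb : (1 : J → F) ∈ b.1
    · obtain ⟨T, u, hu, hsub⟩ := isOpen_pi_iff.1 (hB.isOpen b.2) 1 hb
      refine ⟨T, fun _ x hx => hsub ?_⟩
      intro j hj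
      rw [hx j hj]
      exact (hu j hj).2
    · exact ⟨∅, fun h => absurd h hb⟩
  choose T hT using h1
  obtain ⟨j0, hj0⟩ : ∃ j0, ∀ b, j0 ∉ T b := by
    by_contra hcon
    push Not at hcon
    choose g hg using hcon
    have h2 : #J ≤ #(Σ b : B, T b) := by
      refine Cardinal.mk_le_of_injective (f := fun j => ⟨g j, ⟨j, hg j⟩⟩) ?_
      intro j k hjk
      have := congrArg (fun s : (Σ b : B, T b) => (s.2 : J)) hjk
      exact this
    have h3 : #(Σ b : B, T b) ≤ #B * ℵ₀ := by
      rw [Cardinal.mk_sigma]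
      refine (Cardinal.sum_le_sum _ (fun _ => ℵ₀) fun b => Cardinal.mk_le_aleph0).trans ?_
      rw [Cardinal.sum_const']
    have h4 : #B * ℵ₀ < κ := Cardinal.mul_lt_of_lt hκ.le hlt hκ
    exact absurd (hJ.trans (h2.trans h3)) (not_le.2 h4)
  obtain ⟨a, ha⟩ := exists_ne (1 : F)
  have hopen : IsOpen {x : J → F | x j0 = 1} := by
    have : Continuous fun x : J → F => x j0 := continuous_apply j0
    exact (isOpen_discrete {(1 : F)}).preimage this
  have h1mem : (1 : J → F) ∈ {x : J → F | x j0 = 1} := rfl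
  obtain ⟨b, hb, h1b, hbs⟩ := hB.exists_subset_of_mem_open h1mem hopen
  have h5 : Pi.mulSingle j0 a ∈ b := by
    apply hT ⟨b, hb⟩ h1b
    intro j hj
    apply Pi.mulSingle_eq_of_ne
    rintro rfl
    exact hj0 ⟨b, hb⟩ hj
  have h6 : (Pi.mulSingle j0 a : J → F) j0 = 1 := hbs h5
  rw [Pi.mulSingle_eq_same] at h6
  exact ha h6

/-- A power of the circle with fewer than `κ` coordinates has weight less than `κ`. -/
theorem weight_pi_lt {κ : Cardinal.{0}} (hκ : ℵ₀ < κ) (I : Type) (hI : #I < κ) :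
    ∃ B : Set (Set (I → Circle)), #B < κ ∧ TopologicalSpace.IsTopologicalBasis B := by
  classical
  let C : Set (Set Circle) := TopologicalSpace.countableBasis Circle
  have hC : C.Countable := TopologicalSpace.countable_countableBasis Circle
  have hCc : Countable C := hC.to_subtype
  have hCb : TopologicalSpace.IsTopologicalBasis C :=
    TopologicalSpace.isBasis_countableBasis Circle
  refine ⟨_, ?_, isTopologicalBasis_pi fun _ : I => hCb⟩
  have h1 : #(Finset (I × C)) < κ := by
    apply small_finset hκ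
    rw [Cardinal.mk_prod, Cardinal.lift_id, Cardinal.lift_id]
    exact Cardinal.mul_lt_of_lt hκ.le hI (Cardinal.mk_le_aleph0.trans_lt hκ)
  refine lt_of_le_of_lt ?_ h1
  -- every basic open set is determined by a finite set of pairs
  let g : Finset (I × C) → Set (I → Circle) := fun s => {x | ∀ q ∈ s, x q.1 ∈ q.2.1}
  refine (Cardinal.mk_le_mk_of_subset (t := Set.range g) ?_).trans Cardinal.mk_range_le
  rintro _ ⟨U, F, hF, rfl⟩
  refine ⟨F.attach.image fun i => (i.1, ⟨U i.1, hF i.1 i.2⟩), ?_⟩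
  ext x
  simp only [g, Set.mem_ofPred_eq, Finset.mem_image, Finset.mem_attach, true_and,
    Subtype.exists, forall_exists_index, Set.mem_pi, Finset.mem_coe]
  constructor
  · intro h i hi
    exact h (i, ⟨U i, hF i hi⟩) i hi rfl
  · rintro h q i hi rfl
    exact h i hi

/-- The theorem. -/
theorem weight_iff (κ : Cardinal.{0}) (hκ : ℵ₀ < κ.ord.cof) :
    (∀ (G : Type) [CommGroup G] [τ : TopologicalSpace G] [IsTopologicalGroup G] [T2Space G],
      (∀ t : TopologicalSpace G, τ ≤ t → @IsTopologicalGroup G t _ → @T2Space G t → t = τ) →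
      CPR G → ∃ B : Set (Set G), #B < κ ∧ TopologicalSpace.IsTopologicalBasis B) ↔
    ∃ S : Set (Set ℕ), #S ≤ κ ∧
      ∀ A : Set ℕ, A.Infinite → ∃ s ∈ S, (A ∩ s).Infinite ∧ (A \ s).Infinite := by
  have hκ0 : ℵ₀ < κ := aleph0_lt hκ
  constructor
  · intro H
    by_contra hcon
    let i1 : TopologicalSpace (Multiplicative (ZMod 2)) := ⊥
    have i2 : DiscreteTopology (Multiplicative (ZMod 2)) := ⟨rfl⟩
    have i3 : IsTopologicalGroup (Multiplicative (ZMod 2)) := inferInstance
    have i4 : Finite (Multiplicative (ZMod 2)) := inferInstanceAs (Finite (ZMod 2))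
    have i5 : Nontrivial (Multiplicative (ZMod 2)) := inferInstanceAs (Nontrivial (ZMod 2))
    have i6 : CompactSpace (Multiplicative (ZMod 2)) := Finite.compactSpace
    have i7 : CompactSpace (κ.out → Multiplicative (ZMod 2)) := Pi.compactSpace
    have hJ : #κ.out = κ := Cardinal.mk_out κ
    obtain ⟨B, hB, hBb⟩ := H (κ.out → Multiplicative (ZMod 2))
      (fun t ht _ ht2 => Converse.eq_of_le _ t i7 ht2 ht)
      (CPR_of_isClosed (isClosed_of_seqCompact
        (seqCompact_pi hκ0.le hcon (Multiplicative (ZMod 2)) κ.out hJ.le)))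
    exact absurd hB (not_lt.2 (le_weight hκ0 _ κ.out hJ.ge B hBb))
  · rintro ⟨S, hS, hsplit⟩ G _ _ _ _ hmin hpr
    obtain ⟨I, f, hI, hf⟩ := embedding_of_precompact κ hκ S hS hsplit G
      (PS.precompact_of_minimal PS.all_PS G hmin) hmin (isClosed_of_CPR hpr)
    obtain ⟨B, hB, hBb⟩ := weight_pi_lt hκ0 I hI
    exact ⟨(preimage f) '' B, (Cardinal.mk_image_le).trans_lt hB, hBb.isInducing hf.isInducing⟩

end Pool.Agent.Work.MP_7406cc_gt.W
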